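import Pool.Agent.Run7.h469.TR.P1f047c
import Pool.Agent.Results.MP_1f047c_nt.BestApproximations

/-!
# Singular matrices of logarithms along Euclid's algorithm and in the Farey intervals around a real number

Let `K` be a number field, `V` a `K`-space of complex numbers of finite dimension for which Q1 holds over `K` (for instance `V = 0` or
`dim V = 1`) and `θ_1, …, θ_r` distinct algebraic numbers. We call a tuple `(t_1, …, t_k)` of integers good if all `|t_i| ≥ 2`
implies, for ALL logarithms `l` of the `k r` numbers `|t_i| + θ_j`: the `l` are `K`-linearly independent modulo `V`, and Q1 holds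
over `K`, for matrices of all sizes, for the space `V + K l`.

(1) The subtractive Euclidean algorithm replaces a pair `(a, b)` of positive integers by `(a, b - a)` or `(a - b, b)`. We prove
that for all pairs `(a, b)` in `[1, X]^2` with at most `C X^2 H^(-η)` exceptions, for ALL pairs `(u, v)` with `max(u, v) ≥ H` of
the algorithm of `(a, b)` ALL pairs `t = M (u, v) + b` of nonzero integers are good, where `M` is an integral `2 × 2` matrix with
`det M ≠ 0`, `b` an integral vector and the entries of `M` and `b` are at most `max(u, v)^η`. The numbers `η > 0` and `C` depend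
only on `θ` and on bounds for the degree of `K` and the dimension of `V`.

(2) For all real `α > 0` outside a set of Hausdorff dimension at most `1 - η`, and for almost all `α` with respect to every measure
of dimension larger than `1 - η`, ALL but finitely many Farey intervals `[q / s, p / r]`, `p s - q r = 1`, around `α` have this
property, for the four pairs `(u, v) = (p, q)`, `(r, s)`, `(p, r)`, `(q, s)`.

(3) For almost all real `α` (2) is true for `V = 0` and ALL number fields `K` at the same time.

The starting theorem `TuplesPowerSaving` of this problem bounds the number of pairs up to `U` which are not good by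
`C U^(2 - c)`. For the algorithm a pair `(u, v)` counts with the number of the pairs in `[1, X]^2` above it in the tree, at most
`6 X^2 / (u v)`; a pair with a small coordinate `v` counts too much, and so the chains `(u, v), (u - v, v), …` with a small `v`
are treated as a whole. The starting theorems `BestApproximations` and `GenericLinearForms` of this problem are about integer
vectors near the values of linear forms; a Farey interval around `α` can be much longer than `1 / r^2` and `r / s` is not near
a number determined by `α`.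
-/

set_option autoImplicit false

namespace Pool.Agent.Results.MP_1f047c_nt.EuclidAndFarey

open Finset MeasureTheory Module
open Run7.h469.Ab (euclidExceptions badIntervals)
open Run7.h469.Vp (Combinations)
open Run7.h469.TR.P1f047c (Good few)
open Pool.Agent.Results.MP_1f047c_nt.TuplesPowerSaving (Q1Holds)

/-- **Singular matrices of logarithms along Euclid's algorithm and in Farey intervals.** Let `θ_1, …, θ_r` be distinct algebraic
numbers. (1) For all `d` and `m` there are `η > 0` and `C` such that for all number fields `K` of degree at most `d`, all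
`K`-spaces `V` of complex numbers of dimension at most `m` for which Q1 holds (or of dimension at most `1`), and all `X` and
`H ≥ 1`: for all but `C X^2 H^(-η)` of the pairs `(a, b)` in `[1, X]^2`, for all pairs `(u, v)` with `max(u, v) ≥ H` of the
subtractive Euclidean algorithm of `(a, b)`, all pairs `M (u, v) + b` of nonzero integers, `det M ≠ 0`, with entries of `M` and
`b` at most `max(u, v)^η` are good. (2) For all `d` and `m` there is `η > 0` such that for all these `K` and `V`: for all `α > 0`
outside a set of Hausdorff dimension at most `1 - η`, and for almost all `α > 0` for all measures of a dimension `m' > 1 - η`,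
there are only finitely many `q / s ≤ α ≤ p / r`, `p s - q r = 1`, such that for one of the pairs `(u, v) = (p, q)`, `(r, s)`,
`(p, r)`, `(q, s)` some such pair `M (u, v) + b` is not good. (3) For almost all `α > 0`, for ALL number fields `K` there is
`η > 0` such that this is true for `V = 0`. -/
theorem result {r : ℕ} (θ : Fin r → ℂ) (hθ : ∀ j, IsAlgebraic ℚ (θ j)) (hinj : Function.Injective θ) :
    (∀ d m : ℕ, ∃ η C : ℝ, 0 < η ∧ ∀ K : IntermediateField ℚ ℂ, FiniteDimensional ℚ K → finrank ℚ K ≤ d →
      ∀ V : Submodule K ℂ, Module.Finite K V → finrank K V ≤ m → (finrank K V ≤ 1 ∨ Q1Holds V) → ∀ X H : ℕ, 1 ≤ H →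
        ((euclidExceptions (Combinations η (Good V θ)) X H).card : ℝ) ≤ C * (X : ℝ) ^ 2 * (H : ℝ) ^ (-η)) ∧
    (∀ d m : ℕ, ∃ η : ℝ, 0 < η ∧ ∀ K : IntermediateField ℚ ℂ, FiniteDimensional ℚ K → finrank ℚ K ≤ d →
      ∀ V : Submodule K ℂ, Module.Finite K V → finrank K V ≤ m → (finrank K V ≤ 1 ∨ Q1Holds V) →
      (∃ E : Set ℝ, dimH E ≤ ENNReal.ofReal (1 - η) ∧
        ∀ α : ℝ, 0 < α → α ∉ E → (badIntervals (Combinations η (Good V θ)) α).Finite) ∧
      ∀ (μ : Measure ℝ) (C₁ m' : ℝ), 1 - η < m' →
        (∀ (x ρ : ℝ), 0 < ρ → μ (Metric.closedBall x ρ) ≤ ENNReal.ofReal (C₁ * ρ ^ m')) →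
        ∀ᵐ α ∂μ, 0 < α → (badIntervals (Combinations η (Good V θ)) α).Finite) ∧
    ∀ᵐ α : ℝ, ∀ K : IntermediateField ℚ ℂ, FiniteDimensional ℚ K → ∃ η : ℝ, 0 < η ∧
      (0 < α → (badIntervals (Combinations η (Good (⊥ : Submodule K ℂ) θ)) α).Finite) := by
  have key : ∀ d m : ℕ, ∃ η : ℝ, 0 < η ∧ ∀ K : IntermediateField ℚ ℂ, FiniteDimensional ℚ K → finrank ℚ K ≤ d →
      ∀ V : Submodule K ℂ, Module.Finite K V → finrank K V ≤ m → (finrank K V ≤ 1 ∨ Q1Holds V) →
      (∃ E : Set ℝ, dimH E ≤ ENNReal.ofReal (1 - η) ∧
        ∀ α : ℝ, 0 < α → α ∉ E → (badIntervals (Combinations η (Good V θ)) α).Finite) ∧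
      ∀ (μ : Measure ℝ) (C₁ m' : ℝ), 1 - η < m' →
        (∀ (x ρ : ℝ), 0 < ρ → μ (Metric.closedBall x ρ) ≤ ENNReal.ofReal (C₁ * ρ ^ m')) →
        ∀ᵐ α ∂μ, 0 < α → (badIntervals (Combinations η (Good V θ)) α).Finite := by
    intro d m
    obtain ⟨c, hc, hc1, C, hC, h⟩ := few θ hθ hinj 2 d m
    obtain ⟨η, hη, hE⟩ := Run7.h469.Vp.farey_saving hc (by linarith) hC
    refine ⟨η, hη, fun K hK hKd V hV hVm hV0 => hE _ ?_⟩
    simpa only [Nat.cast_ofNat] using h K hK hKd V hV hVm hV0
  refine ⟨fun d m => ?_, key, ?_⟩
  · obtain ⟨c, hc, hc1, C, hC, h⟩ := few θ hθ hinj 2 d m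
    obtain ⟨η, C', hη, hE⟩ := Run7.h469.Vp.euclid_saving hc (by linarith) hC
    refine ⟨η, C', hη, fun K hK hKd V hV hVm hV0 => hE _ ?_⟩
    simpa only [Nat.cast_ofNat] using h K hK hKd V hV hVm hV0
  have hcount := Pool.Agent.Results.MP_1f047c_nt.BestApproximations.countable_fields
  have h1 : ∀ᵐ α : ℝ, ∀ K : {K : IntermediateField ℚ ℂ // FiniteDimensional ℚ K}, ∃ η : ℝ, 0 < η ∧
      (0 < α → (badIntervals (Combinations η (Good (⊥ : Submodule K.1 ℂ) θ)) α).Finite) := by
    rw [ae_all_iff]
    rintro ⟨K, hK⟩
    obtain ⟨η, hη, h⟩ := key (finrank ℚ K) 0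
    obtain ⟨-, h2⟩ := h K hK le_rfl ⊥ inferInstance (by rw [finrank_bot]) (Or.inl (by rw [finrank_bot]; norm_num))
    filter_upwards [Run7.h469.Vp.ae_of (by linarith) h2] with α hα
    exact ⟨η, hη, hα⟩
  filter_upwards [h1] with α hα K hK
  exact hα ⟨K, hK⟩

end Pool.Agent.Results.MP_1f047c_nt.EuclidAndFarey
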