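import Pool.Agent.Run7.h469.TR.P1f047c
import Pool.Agent.Run7.h469.Vm

/-!
# Singular matrices of logarithms of products of linear forms in almost all integer vectors, and in expansions

Let `K` be a number field, `V` a `K`-space of complex numbers of finite dimension for which Q1 holds over `K` (for instance `V = 0` or
`dim V = 1`) and `θ_1, …, θ_r` distinct algebraic numbers. We call a tuple `(t_1, …, t_k)` of integers good if all `|t_i| ≥ 2`
implies, for ALL logarithms `l` of the `k r` numbers `|t_i| + θ_j`: the `l` are `K`-linearly independent modulo `V`, and Q1 holds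
over `K`, for matrices of all sizes, for the space `V + K l`.

Let `k, h ≥ 1` (for `h = 1` there are no products, only linear forms). We prove that for all integer vectors `x` in `[-X, X]^D`
with at most `C' Q^(k h (D + 2)) X^(D - c)` exceptions, `C'` depending on `D`, ALL `k`-tuples `t` of products of `h` linear forms,
`t_i = ∏_(j ≤ h) y_(i,j)` with `y = M x + b`, `M` an integral matrix of rank `k h`, `b` an integral vector, the entries of `M`
and `b` at most `Q`, all `y_(i,j) ≠ 0`, are good. Here `Q` can be a small power of `X`. We prove a similar result for the integer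
vectors near `N_n α`, `N_n` a lacunary sequence (for instance the truncations of the expansions in base `g`, `N_n = g^n`), for all
real vectors `α` outside a set of dimension less than `D`, and `M`, `b` with entries up to a power of `N_n`.

The starting theorem `TuplesPowerSaving` of this problem bounds the number of tuples up to `U` which are not good by
`C U^(k - c)`. The products of `h` integers form a set of density zero, and so the result for `h ≥ 2` does not follow from this
number alone: the divisor bound shows that few vectors `y` have a bad tuple of products, and for each of the possible `M`, `b`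
the map `x ↦ M x + b` has small fibres. The starting theorem `GenericLinearForms` is about the integer vectors near `α v_n` for
generic matrices `α`, that is the case `h = 1` with fixed `M`.
-/

set_option autoImplicit false

namespace Pool.Agent.Results.MP_1f047c_nt.ProductsOfLinearForms

open Finset MeasureTheory Module
open Run7.h469.Vk (Hits Lacunary Generic Avoids)
open Run7.h469.Vm (ProductIn)
open Run7.h469.TR.P1f047c (Good few)
open Pool.Agent.Results.MP_1f047c_nt.TuplesPowerSaving (Q1Holds)

/-- The `k`-tuples of nonzero integers which are not good. -/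
def Bad {K : IntermediateField ℚ ℂ} (V : Submodule K ℂ) (k : ℕ) {r : ℕ} (θ : Fin r → ℂ) : Set (Fin k → ℤ) :=
  {t | (∀ i, t i ≠ 0) ∧ ¬ Good V θ t}

/-- **Singular matrices of logarithms of products of linear forms.** Let `θ_1, …, θ_r` be distinct algebraic numbers, `k ≥ 1`,
`d` and `m` natural numbers. There is `c > 0` and for all `h ≥ 1` there is `C` such that for all number fields `K` of degree at
most `d` and all `K`-spaces `V` of complex numbers of dimension at most `m` for which Q1 holds (or of dimension at most `1`):
(1) for all `D` and `X, Q ≥ 1`, for all but `C ((D + 1)^(k h) 3^((k h + 1) (D + 1))) Q^(k h (D + 2)) X^(D - c)` of the integer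
vectors `x` in `[-X, X]^D` no tuple of the products `∏_(j ≤ h) y_(i,j)` of nonzero coordinates of a vector `y = M x + b`, `M`
integral of rank `k h`, with entries of `M` and `b` at most `Q`, is bad; (2) for lacunary `N_n` and `η ≥ 0`, outside a set of `α`
in `ℝ^D` of dimension at most `D - c + k h (D + 2) η`, for all `A`, for all large `n` the same is true for the integer vectors
`x` with `|x - N_n α| ≤ A` and `M`, `b` with entries at most `A N_n^η`; (3) in particular it is true for almost all `α`, if
`k h (D + 2) η < c`. -/
theorem result {r : ℕ} (θ : Fin r → ℂ) (hθ : ∀ j, IsAlgebraic ℚ (θ j)) (hinj : Function.Injective θ) (k d m : ℕ)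
    (hk : 1 ≤ k) : ∃ c : ℝ, 0 < c ∧ ∀ h : ℕ, 1 ≤ h → ∃ C : ℝ, ∀ K : IntermediateField ℚ ℂ, FiniteDimensional ℚ K →
      finrank ℚ K ≤ d → ∀ V : Submodule K ℂ, Module.Finite K V → finrank K V ≤ m → (finrank K V ≤ 1 ∨ Q1Holds V) →
      (∀ D X Q : ℕ, 1 ≤ X → 1 ≤ Q →
        (({x : Fin D → ℤ | (∀ j, |x j| ≤ X) ∧ x ∈ Hits (ProductIn h (Bad V k θ)) D Q}.ncard : ℕ) : ℝ) ≤
          C * (((D : ℝ) + 1) ^ (k * h) * 3 ^ ((k * h + 1) * (D + 1))) * (Q : ℝ) ^ (k * h * (D + 2)) *
            (X : ℝ) ^ ((D : ℝ) - c)) ∧
      (∀ D : ℕ, 1 ≤ D → ∀ N : ℕ → ℝ, Lacunary N → ∀ η : ℝ, 0 ≤ η →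
        Generic ((D : ℝ) - c + k * h * (D + 2) * η) (fun α : Fin D → ℝ => Avoids (ProductIn h (Bad V k θ)) N η α)) ∧
      ∀ D : ℕ, 1 ≤ D → ∀ N : ℕ → ℝ, Lacunary N → ∀ η : ℝ, 0 ≤ η → k * h * (D + 2) * η < c →
        ∀ᵐ α : Fin D → ℝ, Avoids (ProductIn h (Bad V k θ)) N η α := by
  obtain ⟨c, hc, hc1, C, hC, hf⟩ := few θ hθ hinj k d m
  refine ⟨c / 2, by linarith, fun h hh => ?_⟩
  have hh1 : (1 : ℝ) ≤ h := by exact_mod_cast hh
  obtain ⟨C', -, key⟩ := Run7.h469.Vm.products_of_forms (k := k) (b := h) hk hh hC (c := c) (c' := c / 2)
    (by linarith) (by linarith) (by nlinarith)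
  exact ⟨C', fun K hK hKd V hV hVm hV0 => key _ (hf K hK hKd V hV hVm hV0)⟩

end Pool.Agent.Results.MP_1f047c_nt.ProductsOfLinearForms
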