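import Pool.Agent.Run7.h788.RandGen
import Pool.Agent.R350.GV
import Pool.Agent.R350.Kernel

/-!
# Singular matrices of logarithms whose kernel meets a random space, with exponentially few exceptions

Let `LogForms` be the space of all linear combinations, with algebraic coefficients, of `1` and logarithms
of algebraic numbers, and let `V` be a rational space of complex numbers of dimension at most `m`.  Let
`λ_{j,1}, …, λ_{j,k}` (`j = 1, …, n`) be ARBITRARY elements of `LogForms` which are linearly independent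
over `ℚ̄`, for instance, by the theorem of Baker, logarithms of algebraic numbers which are linearly
independent over `ℚ` (for different `j` they may be the same), let `ζ_1, …, ζ_n` be arbitrary elements of
`LogForms`, for instance `0`, and let `X` be a finite nonempty set of rational numbers, for instance
`{0, 1}`.  For a matrix `a = (a_{j,i})` with entries in `X` let

  `y_j = ζ_j + ∑_i a_{j,i} λ_{j,i}`  (`j = 1, …, n`).

Then, for `k ≥ k₀`, for all but `C |X| ^ (n k - δ k)` of the `|X| ^ (n k)` matrices `a` the space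
`V' = V + ℚ y_1 + ⋯ + ℚ y_n` has dimension `dim V + n`, and the conclusion of Q1 holds for all square
matrices `M` of all sizes with ARBITRARY entries in the space of all logarithms of algebraic numbers which
have a left or right kernel vector with coordinates in `V'`, not all in `V`.  The same is true for the
`p`-adic logarithms and Q2, for all primes `p`.  The constants `k₀`, `C` and `δ > 0` depend only on `n`
and `m`, and not on `p`, `V`, `λ`, `ζ` and `X`.

In the starting results `GenericKernel` and `GenericKernelPadic` of this problem the `y_j` are logarithms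
of integers up to `x`, with the saving `(log log x) ^ C / log x`.

The proof.  By the hyperplane case of the linear subgroup theorem of Waldschmidt and Roy every cube in
sufficiently many linearly independent directions contains a point which is not exceptional for a given
space of coefficients (`Pool.Agent.R350.grid_avoid`).  So the exceptional parameters contain no
nondegenerate cube, and an iterated Cauchy-Schwarz inequality (`Pool.Agent.Y918.OL.cube_count`) shows that
they are exponentially rare (`Pool.Agent.Run7.h788.RandGen`).  For a generic tuple `y` the linear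
relations with coefficients in `V'` between arbitrary logarithms are alternating
(`Pool.Agent.R350.skewness`), so there is a rational vector `v` such that the coordinates of `M v` lie in a
space of dimension less than the size of `M` over the algebraic numbers; by the theorem of Baker they are
linearly dependent over `ℚ` (`Pool.Agent.R350.kernel_zero`).
-/

set_option autoImplicit false

namespace Pool.Agent.Results.MP_1f047c_nt.RandomKernel

open Module

/-- the conclusion of the problem for the matrix `M`: rational changes of basis give a zero entry -/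
def HasZero {C : Type} [Field C] [CharZero C] {N : ℕ} (M : Matrix (Fin N) (Fin N) C) : Prop :=
  ∃ w v : Fin N → ℚ, w ≠ 0 ∧ v ≠ 0 ∧ ∑ i, ∑ j, (w i : C) * M i j * (v j : C) = 0

/-- `V' = V + ℚ y_1 + ⋯ + ℚ y_n` has dimension `dim V + n`, and all square matrices with entries in `Λ`
and with a left or right kernel vector with coordinates in `V'`, not all in `V`, have a zero after
rational changes of basis -/
def Generic {C : Type} [Field C] [CharZero C] (Λ : Set C) (V : Submodule ℚ C) {n : ℕ}
    (y : Fin n → C) : Prop :=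
  finrank ℚ (V ⊔ Submodule.span ℚ (Set.range y) : Submodule ℚ C) = finrank ℚ V + n ∧
    ∀ (N : ℕ) (M : Matrix (Fin N) (Fin N) C) (u : Fin N → C), (∀ i j, M i j ∈ Λ) →
      (∀ j, u j ∈ V ⊔ Submodule.span ℚ (Set.range y)) → (∃ j, u j ∉ V) →
      (M.mulVec u = 0 ∨ M.vecMul u = 0) → HasZero M

/-- the logarithms of algebraic numbers -/
def Logs : Set ℂ := {z | IsAlgebraic ℚ (Complex.exp z)}

/-- the linear combinations, with algebraic coefficients, of `1` and logarithms of algebraic numbers -/
noncomputable def LogForms : Submodule (algebraicClosure ℚ ℂ) ℂ :=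
  Submodule.span (algebraicClosure ℚ ℂ) ({1} ∪ {z : ℂ | IsAlgebraic ℚ (Complex.exp z)})

/-- `L` is the Iwasawa `p`-adic logarithm on the algebraic closure of `ℚ_p`. -/
def IsIwasawaLog (p : ℕ) [Fact p.Prime] (L : PadicAlgCl p → PadicAlgCl p) : Prop :=
  (∀ x y : PadicAlgCl p, x ≠ 0 → y ≠ 0 → L (x * y) = L x + L y) ∧
  L ((p : ℕ) : PadicAlgCl p) = 0 ∧
  ∀ z : PadicAlgCl p, ‖z‖ < 1 →
    HasSum (fun n : ℕ => (-1 : PadicAlgCl p) ^ n * z ^ (n + 1) / ((n : PadicAlgCl p) + 1))
      (L (1 + z))

/-- the `p`-adic logarithms of algebraic numbers -/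
def PadicLogs {p : ℕ} [Fact p.Prime] (L : PadicAlgCl p → PadicAlgCl p) : Set (PadicAlgCl p) :=
  {z | ∃ α : PadicAlgCl p, α ≠ 0 ∧ IsAlgebraic ℚ α ∧ z = L α}

/-- the linear combinations, with algebraic coefficients, of `1` and `p`-adic logarithms of algebraic
numbers -/
noncomputable def PadicLogForms {p : ℕ} [Fact p.Prime] (L : PadicAlgCl p → PadicAlgCl p) :
    Submodule (algebraicClosure ℚ (PadicAlgCl p)) (PadicAlgCl p) :=
  Submodule.span (algebraicClosure ℚ (PadicAlgCl p))
    ({1} ∪ {z | ∃ α : PadicAlgCl p, α ≠ 0 ∧ IsAlgebraic ℚ α ∧ z = L α})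

theorem generic_of {κ C : Type} [Field κ] [CharZero κ] [Field C] [CharZero C] [Algebra κ C]
    {v : ℕ} {L : Submodule κ C} (Λ : Submodule ℚ C) (hΛ : Pool.Agent.W245.PB.BakerProp κ Λ)
    (hΛL : ∀ z ∈ Λ, z ∈ L) (V : Submodule ℚ C) [Module.Finite ℚ V]
    (hL : Pool.Agent.R350.HypV v (L ⊔ Submodule.span κ (V : Set C))) {n : ℕ} (f : Fin n → C)
    (hf : ∀ i, f i ∈ L)
    (hgen : Pool.Agent.R350.Gen v (L ⊔ Submodule.span κ (V : Set C))
      (Submodule.span κ (V : Set C)) f) : Generic (Λ : Set C) V f := by
  refine ⟨Pool.Agent.R350.Gen.finrankQ V _ hgen, fun N M u hM hu huV hker => ?_⟩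
  rcases hker with hker | hker
  · exact Pool.Agent.R350.kernel_zero Λ hΛ hΛL V hL f hf hgen M hM u hu huV
      (fun i => congrFun hker i)
  · obtain ⟨w, v, hw, hv, h⟩ := Pool.Agent.R350.kernel_zero Λ hΛ hΛL V hL f hf hgen M.transpose
      (fun i j => hM j i) u hu huV (fun i => by
        have h1 := congrFun hker i
        rw [← Matrix.mulVec_transpose] at h1
        exact h1)
    refine ⟨v, w, hv, hw, ?_⟩
    rw [← h, Finset.sum_comm]
    refine Finset.sum_congr rfl fun i _ => Finset.sum_congr rfl fun j _ => ?_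
    rw [Matrix.transpose_apply]
    ring

theorem mem_of {κ C : Type} [Field κ] [CharZero κ] [Field C] [CharZero C] [Algebra κ C]
    (L : Submodule κ C) {k : ℕ} {lam : Fin k → C} (hlam : ∀ i, lam i ∈ L) {ζ : C} (hζ : ζ ∈ L)
    (a : Fin k → ℚ) : ζ + ∑ i, (a i : C) * lam i ∈ L :=
  L.add_mem hζ (L.sum_mem fun i _ => Run7.h788.ratCast_mul_mem L (hlam i) (a i))

open Classical in
/-- **Main result.** -/
theorem result (n m : ℕ) : ∃ (k₀ C : ℕ) (δ : ℝ), 0 < δ ∧ ∀ k ≥ k₀, ∀ X : Finset ℚ, X.Nonempty →
    (∀ V : Submodule ℚ ℂ, Module.Finite ℚ V → finrank ℚ V ≤ m →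
      ∀ lam : Fin n → Fin k → ℂ, (∀ j i, lam j i ∈ LogForms) →
      (∀ j, LinearIndependent (algebraicClosure ℚ ℂ) (lam j)) →
      ∀ ζ : Fin n → ℂ, (∀ j, ζ j ∈ LogForms) →
      (((Fintype.piFinset fun _ : Fin n => Fintype.piFinset fun _ : Fin k => X).filter fun a =>
        ¬ Generic Logs V (fun j => ζ j + ∑ i, (a j i : ℂ) * lam j i)).card : ℝ) ≤
        C * (X.card : ℝ) ^ ((n * k : ℝ) - δ * k)) ∧
    (∀ (p : ℕ) [Fact p.Prime] (L : PadicAlgCl p → PadicAlgCl p), IsIwasawaLog p L →
      ∀ V : Submodule ℚ (PadicAlgCl p), Module.Finite ℚ V → finrank ℚ V ≤ m →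
      ∀ lam : Fin n → Fin k → PadicAlgCl p, (∀ j i, lam j i ∈ PadicLogForms L) →
      (∀ j, LinearIndependent (algebraicClosure ℚ (PadicAlgCl p)) (lam j)) →
      ∀ ζ : Fin n → PadicAlgCl p, (∀ j, ζ j ∈ PadicLogForms L) →
      (((Fintype.piFinset fun _ : Fin n => Fintype.piFinset fun _ : Fin k => X).filter fun a =>
        ¬ Generic (PadicLogs L) V
          (fun j => ζ j + ∑ i, (a j i : PadicAlgCl p) * lam j i)).card : ℝ) ≤
        C * (X.card : ℝ) ^ ((n * k : ℝ) - δ * k)) := by
  obtain ⟨k₀, C, δ, hδ, h⟩ := Run7.h788.rand_gen n m 0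
  refine ⟨k₀, C, δ, hδ, fun k hk X hX => ⟨fun V hVf hVm lam hlam hli ζ hζ => ?_,
    fun p _ L hL0 V hVf hVm lam hlam hli ζ hζ => ?_⟩⟩
  · have hS := Pool.Agent.R350.setup_complex
    have hVf' := Pool.Agent.R350.spanK_finite (κ := algebraicClosure ℚ ℂ) V
    have hVm' := (Pool.Agent.R350.finrank_spanK_le (κ := algebraicClosure ℚ ℂ) V).trans hVm
    have h5 := h k hk (algebraicClosure ℚ ℂ) ℂ Pool.Agent.H301R2.SSE.Lt hS.hyp hS.one
      (Submodule.span (algebraicClosure ℚ ℂ) (V : Set ℂ)) hVf' hVm' lam
      (fun j i => Submodule.mem_sup_left (hlam j i)) hli X hX ζ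
      (fun j => Submodule.mem_sup_left (hζ j))
    refine le_trans (Nat.cast_le.2 (Finset.card_le_card ?_)) h5
    intro a ha
    rw [Finset.mem_filter] at ha ⊢
    refine ⟨ha.1, fun hgen => ha.2 ?_⟩
    exact generic_of Pool.Agent.R350.logSub Pool.Agent.R350.baker_logSub
      (fun z hz => Pool.Agent.H301R2.SSE.Lt_log hz) V (hS.hyp.sup _ hVm') _
      (fun j => mem_of Pool.Agent.H301R2.SSE.Lt (hlam j) (hζ j) (a j)) hgen
  · have hL : Pool.Agent.W245.PB.IsIwasawaLog p L := ⟨hL0.1, hL0.2.1, hL0.2.2⟩
    have hS := Pool.Agent.R350.setup_padic hL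
    have hVf' := Pool.Agent.R350.spanK_finite (κ := algebraicClosure ℚ (PadicAlgCl p)) V
    have hVm' := (Pool.Agent.R350.finrank_spanK_le
      (κ := algebraicClosure ℚ (PadicAlgCl p)) V).trans hVm
    have h5 := h k hk (algebraicClosure ℚ (PadicAlgCl p)) (PadicAlgCl p)
      (Pool.Agent.W254.PA.LtE (Pool.Agent.W254.PA.logs L)) hS.hyp hS.one
      (Submodule.span (algebraicClosure ℚ (PadicAlgCl p)) (V : Set (PadicAlgCl p))) hVf' hVm' lam
      (fun j i => Submodule.mem_sup_left (hlam j i)) hli X hX ζ
      (fun j => Submodule.mem_sup_left (hζ j))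
    refine le_trans (Nat.cast_le.2 (Finset.card_le_card ?_)) h5
    intro a ha
    rw [Finset.mem_filter] at ha ⊢
    refine ⟨ha.1, fun hgen => ha.2 ?_⟩
    exact generic_of (Pool.Agent.R350.logSubP hL) (Pool.Agent.R350.baker_logSubP hL)
      (fun z hz => Pool.Agent.Y787.log_mem hz) V (hS.hyp.sup _ hVm') _
      (fun j => mem_of (Pool.Agent.W254.PA.LtE (Pool.Agent.W254.PA.logs L)) (hlam j) (hζ j) (a j))
      hgen

end Pool.Agent.Results.MP_1f047c_nt.RandomKernel
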