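import Pool.Agent.Run7.h788.RandTwo
import Pool.Agent.R350.GK
import Pool.Agent.R350.GV
import Pool.Agent.R350.Kernel

/-!
# Singular matrices of logarithms with all rows but one random, with exponentially few exceptions

Let `λ_{j,1}, …, λ_{j,k}` (`j = 1, …, n`) be ARBITRARY logarithms of algebraic numbers which are linearly
independent over `ℚ` (for different `j` they may be the same), let `ζ_1, …, ζ_n` be arbitrary logarithms
of algebraic numbers, for instance `0`, and let `X` be a finite nonempty set of rational numbers, for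
instance `{0, 1}`.  For a matrix `a = (a_{j,i})` with entries in `X` let

  `y_j = ζ_j + ∑_i a_{j,i} λ_{j,i}`  (`j = 1, …, n`).

Then, for `k ≥ k₀`, for all but `C |X| ^ (n k - δ k)` of the `|X| ^ (n k)` matrices `a` the numbers
`y_1, …, y_n` are linearly independent over `ℚ`, and the conclusion of Q1 holds for ALL square matrices
of all sizes with all rows but one (or all columns but one) in the space `ℚ y_1 + ⋯ + ℚ y_n` and with
ARBITRARY logarithms of algebraic numbers in the remaining row (or column).  The same is true for the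
`p`-adic logarithms and Q2, for all primes `p`.  The constants `k₀`, `C` and `δ > 0` depend only on `n`,
and not on `p`, `λ`, `ζ` and `X`.

In the starting results `AllButOneRow` and `AllButOneRowPadic` of this problem the `y_j` are logarithms of
integers up to `x`, with the saving `(log log x) ^ C / log x`.

The proof.  By the hyperplane case of the linear subgroup theorem of Waldschmidt and Roy every cube in
sufficiently many linearly independent directions contains a point which has only formal relations, also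
with arbitrary further logarithms (`Pool.Agent.R350.PD_all`).  So the exceptional parameters contain no
nondegenerate cube, and an iterated Cauchy-Schwarz inequality (`Pool.Agent.Y918.OL.cube_count`) shows that
they are exponentially rare (`Pool.Agent.Run7.h788.RandFree`).  If `y` has only formal relations then the
determinant vanishes formally, and all members of the space of rational matrices which defines the
given matrix are singular; so they have a common isotropic pair of vectors (`Pool.Agent.R350.rows_zero`).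
-/

set_option autoImplicit false

namespace Pool.Agent.Results.MP_1f047c_nt.RandomRows

open Module

/-- the conclusion of the problem for the matrix `M`: rational changes of basis give a zero entry -/
def HasZero {C : Type} [Field C] [CharZero C] {N : ℕ} (M : Matrix (Fin N) (Fin N) C) : Prop :=
  ∃ w v : Fin N → ℚ, w ≠ 0 ∧ v ≠ 0 ∧ ∑ i, ∑ j, (w i : C) * M i j * (v j : C) = 0

/-- `y` is linearly independent over `ℚ`, and all singular square matrices with entries in `Λ` and with
all rows but one, or all columns but one, in the rational space generated by `y` have a zero after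
rational changes of basis -/
def Generic {C : Type} [Field C] [CharZero C] (Λ : Set C) {n : ℕ} (y : Fin n → C) : Prop :=
  LinearIndependent ℚ y ∧
    ∀ (N : ℕ) (M : Matrix (Fin N) (Fin N) C) (i₀ : Fin N), (∀ i j, M i j ∈ Λ) →
      ((∀ i, i ≠ i₀ → ∀ j, M i j ∈ Submodule.span ℚ (Set.range y)) ∨
        ∀ j, j ≠ i₀ → ∀ i, M i j ∈ Submodule.span ℚ (Set.range y)) →
      M.det = 0 → HasZero M

/-- `L` is the Iwasawa `p`-adic logarithm on the algebraic closure of `ℚ_p`. -/
def IsIwasawaLog (p : ℕ) [Fact p.Prime] (L : PadicAlgCl p → PadicAlgCl p) : Prop :=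
  (∀ x y : PadicAlgCl p, x ≠ 0 → y ≠ 0 → L (x * y) = L x + L y) ∧
  L ((p : ℕ) : PadicAlgCl p) = 0 ∧
  ∀ z : PadicAlgCl p, ‖z‖ < 1 →
    HasSum (fun n : ℕ => (-1 : PadicAlgCl p) ^ n * z ^ (n + 1) / ((n : PadicAlgCl p) + 1))
      (L (1 + z))

/-- the logarithms of algebraic numbers -/
def Logs : Set ℂ := {z | IsAlgebraic ℚ (Complex.exp z)}

/-- the `p`-adic logarithms of algebraic numbers -/
def PadicLogs {p : ℕ} [Fact p.Prime] (L : PadicAlgCl p → PadicAlgCl p) : Set (PadicAlgCl p) :=
  {z | ∃ α : PadicAlgCl p, α ≠ 0 ∧ IsAlgebraic ℚ α ∧ z = L α}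

theorem generic_of {κ C : Type} [Field κ] [CharZero κ] [Field C] [CharZero C] [Algebra κ C]
    {L : Submodule κ C} (Λ : Submodule ℚ C) (hΛL : ∀ z ∈ Λ, z ∈ L) (h1L : (1 : C) ∈ L)
    {n : ℕ} (f : Fin n → C) (hf : ∀ i, f i ∈ Λ)
    (hB : ∀ (r : ℕ) (g : Fin r → C), (∀ j, g j ∈ Λ) →
      LinearIndependent ℚ (Sum.elim f g) → ∀ (c0 : κ) (b : Fin n → κ) (c : Fin r → κ),
      c0 • (1 : C) + ∑ i, b i • f i + ∑ j, c j • g j = 0 → ∀ j, c j = 0)
    (H : Pool.Agent.R350.FreeT (n + 2) L (Submodule.span κ {(1 : C)}) f) :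
    Generic (Λ : Set C) f := by
  have hQ : LinearIndependent ℚ f := Pool.Agent.R350.FreeT.indepQ (D := n + 1) H
  have main : ∀ (N : ℕ) (M : Matrix (Fin N) (Fin N) C) (i₀ : Fin N),
      (∀ i j, M i j ∈ Λ) →
      (∀ i, i ≠ i₀ → ∀ j, M i j ∈ Submodule.span ℚ (Set.range f)) →
      M.det = 0 →
      ∃ w v : Fin N → ℚ, w ≠ 0 ∧ v ≠ 0 ∧ ∑ i, ∑ j, (w i : C) * M i j * (v j : C) = 0 := by
    intro N M i₀ hM hrow hdet
    rcases Nat.lt_or_ge (n + 1) N with hlt | hge
    · exact Pool.Agent.R350.rows_zero_large hlt _ M i₀ hrow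
    · exact Pool.Agent.R350.rows_zero (D := n + 2) Λ hΛL h1L (by omega) _ hf hB H hQ M hM i₀ hrow
        hdet
  refine ⟨hQ, fun N M i₀ hM hrow hdet => ?_⟩
  rcases hrow with hrow | hcol
  · exact main N M i₀ hM hrow hdet
  · obtain ⟨w, v, hw, hv, h⟩ := main N M.transpose i₀ (fun i j => hM j i) hcol (by
      rw [Matrix.det_transpose]; exact hdet)
    refine ⟨v, w, hv, hw, ?_⟩
    rw [← h, Finset.sum_comm]
    refine Finset.sum_congr rfl fun i _ => Finset.sum_congr rfl fun j _ => ?_
    rw [Matrix.transpose_apply]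
    ring

theorem mem_of {C : Type} [Field C] [CharZero C] (Λ : Submodule ℚ C) {k : ℕ} {lam : Fin k → C}
    (hlam : ∀ i, lam i ∈ Λ) {ζ : C} (hζ : ζ ∈ Λ) (a : Fin k → ℚ) :
    ζ + ∑ i, (a i : C) * lam i ∈ Λ := by
  refine Λ.add_mem hζ (Λ.sum_mem fun i _ => ?_)
  have h := Λ.smul_mem (a i) (hlam i)
  rwa [Rat.smul_def] at h

open Classical in
/-- **Main result.** -/
theorem result (n : ℕ) : ∃ (k₀ C : ℕ) (δ : ℝ), 0 < δ ∧ ∀ k ≥ k₀, ∀ X : Finset ℚ, X.Nonempty →
    (∀ lam : Fin n → Fin k → ℂ, (∀ j i, lam j i ∈ Logs) → (∀ j, LinearIndependent ℚ (lam j)) →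
      ∀ ζ : Fin n → ℂ, (∀ j, ζ j ∈ Logs) →
      (((Fintype.piFinset fun _ : Fin n => Fintype.piFinset fun _ : Fin k => X).filter fun a =>
        ¬ Generic Logs (fun j => ζ j + ∑ i, (a j i : ℂ) * lam j i)).card : ℝ) ≤
        C * (X.card : ℝ) ^ ((n * k : ℝ) - δ * k)) ∧
    (∀ (p : ℕ) [Fact p.Prime] (L : PadicAlgCl p → PadicAlgCl p), IsIwasawaLog p L →
      ∀ lam : Fin n → Fin k → PadicAlgCl p, (∀ j i, lam j i ∈ PadicLogs L) →
      (∀ j, LinearIndependent ℚ (lam j)) → ∀ ζ : Fin n → PadicAlgCl p, (∀ j, ζ j ∈ PadicLogs L) →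
      (((Fintype.piFinset fun _ : Fin n => Fintype.piFinset fun _ : Fin k => X).filter fun a =>
        ¬ Generic (PadicLogs L)
          (fun j => ζ j + ∑ i, (a j i : PadicAlgCl p) * lam j i)).card : ℝ) ≤
        C * (X.card : ℝ) ^ ((n * k : ℝ) - δ * k)) := by
  obtain ⟨k₀, C, δ, hδ, h⟩ := Run7.h788.rand_free (n + 2) n 1 0
  refine ⟨k₀, C, δ, hδ, fun k hk X hX => ⟨fun lam hlam hli ζ hζ => ?_,
    fun p _ L hL0 lam hlam hli ζ hζ => ?_⟩⟩
  · have hS := Pool.Agent.R350.setup_complex
    have h5 := h k hk (algebraicClosure ℚ ℂ) ℂ Pool.Agent.H301R2.SSE.Lt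
      (Submodule.span (algebraicClosure ℚ ℂ) {(1 : ℂ)})
      (FiniteDimensional.span_of_finite _ (Set.finite_singleton _)) hS.hyp hS.one
      (Submodule.mem_span_singleton_self _) (Pool.Agent.R350.finrank_span_one _ _) lam
      (fun j i => Pool.Agent.H301R2.SSE.Lt_log (hlam j i))
      (fun j => Pool.Agent.R350.li_complex _ (hlam j) (hli j)) X hX ζ
      (fun j => Pool.Agent.H301R2.SSE.Lt_log (hζ j))
    refine le_trans (Nat.cast_le.2 (Finset.card_le_card ?_)) h5
    intro a ha
    rw [Finset.mem_filter] at ha ⊢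
    refine ⟨ha.1, fun hfree => ha.2 ?_⟩
    have hlog : ∀ j, ζ j + ∑ i, (a j i : ℂ) * lam j i ∈ Pool.Agent.R350.logSub := fun j =>
      mem_of Pool.Agent.R350.logSub (fun i => hlam j i) (hζ j) (a j)
    exact generic_of Pool.Agent.R350.logSub (fun z hz => Pool.Agent.H301R2.SSE.Lt_log hz) hS.one _
      hlog (fun r g hg hli c0 b c h0 => (Pool.Agent.R350.indep_inhom_complex _ g hlog hg hli c0 b c
        h0).2.2) hfree
  · have hL : Pool.Agent.W245.PB.IsIwasawaLog p L := ⟨hL0.1, hL0.2.1, hL0.2.2⟩
    have hS := Pool.Agent.R350.setup_padic hL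
    have hliκ : ∀ j, LinearIndependent (algebraicClosure ℚ (PadicAlgCl p)) (lam j) := by
      intro j
      rw [Fintype.linearIndependent_iff]
      intro c hc
      have h1 := Pool.Agent.R350.indep_inhom_padic hL (lam j) (fun i : Fin 0 => i.elim0)
        (fun i => hlam j i) (fun i => i.elim0) (by
          have e : Sum.elim (lam j) (fun i : Fin 0 => (i.elim0 : PadicAlgCl p)) =
              lam j ∘ (Equiv.sumEmpty (Fin k) (Fin 0)) := by
            funext s
            rcases s with i | i
            · rfl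
            · exact i.elim0
          rw [e]
          exact (linearIndependent_equiv _).2 (hli j)) 0 c (fun i => i.elim0) (by
          rw [zero_smul, zero_add, hc, zero_add]
          simp)
      exact h1.2.1
    have h5 := h k hk (algebraicClosure ℚ (PadicAlgCl p)) (PadicAlgCl p)
      (Pool.Agent.W254.PA.LtE (Pool.Agent.W254.PA.logs L))
      (Submodule.span (algebraicClosure ℚ (PadicAlgCl p)) {(1 : PadicAlgCl p)})
      (FiniteDimensional.span_of_finite _ (Set.finite_singleton _)) hS.hyp hS.one
      (Submodule.mem_span_singleton_self _) (Pool.Agent.R350.finrank_span_one _ _) lam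
      (fun j i => Pool.Agent.Y787.log_mem (hlam j i)) hliκ X hX ζ
      (fun j => Pool.Agent.Y787.log_mem (hζ j))
    refine le_trans (Nat.cast_le.2 (Finset.card_le_card ?_)) h5
    intro a ha
    rw [Finset.mem_filter] at ha ⊢
    refine ⟨ha.1, fun hfree => ha.2 ?_⟩
    have hlog : ∀ j, ζ j + ∑ i, (a j i : PadicAlgCl p) * lam j i ∈ Pool.Agent.R350.logSubP hL :=
      fun j => mem_of (Pool.Agent.R350.logSubP hL) (fun i => hlam j i) (hζ j) (a j)
    exact generic_of (Pool.Agent.R350.logSubP hL) (fun z hz => Pool.Agent.Y787.log_mem hz) hS.one _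
      hlog (fun r g hg hli c0 b c h0 => (Pool.Agent.R350.indep_inhom_padic hL _ g hlog hg hli c0 b c
        h0).2.2) hfree

end Pool.Agent.Results.MP_1f047c_nt.RandomRows
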